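import Pool.Agent.H756.VK.Fin2

/-!
# Knots in thickened surfaces with cycle-dominated states

Library definitions (`Pool.Agent.H832R2.JR.Defs`, `Pool.Agent.H867R3.Kn.Defs`, `Pool.Agent.X130.KD`):

* `GaussWord N`: the Gauss word `G` of a knot diagram with `N` crossings on a closed oriented surface of
  any genus; `w c = true` if the crossing `c` is positive; the bracket depends only on `G` and `w`;
* a state is a function `s : Fin N → Bool` (`true`: oriented smoothing; it is the smoothing of type `A`
  exactly at the positive crossings); `asm w s`: the set of the crossings with the smoothing of type `A`;
  `loops G s`: the number of the curves of the state;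
* the state graph of `s`: its vertices are the curves of `s`, its edges are the crossings (a crossing
  joins the two curves which meet there); `vpieces G s X`: the number of components of its subgraph with
  the set of edges `X` and all vertices;
* `fPoly G w`: the normalised bracket polynomial `f` (the Jones polynomial for `A = t^(-1/4)`);
  `writhe w`: the writhe; `UntiedByKinks G`: the crossings can be removed one after the other as kinks,
  so that the knot is trivial;
* `Ori G (st s) o`: `o` is an orientation of the curves of the state; `Flat G s o`: changing the
  smoothings of a nonempty set `S` of parallel crossings gives `v + |S| - 2` curves (always so on the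
  sphere).

New definitions (`Pool.Agent.H756.VK`), for a function `cc` such as `vpieces G s`:

* `NoBr cc X`: the subgraph `X` has no bridge; `Cyc cc X`: the set of edges `X` is a cycle, that is, it has
  no bridge, and its cyclomatic number `|X| + cc X - cc ∅` is `1`;
* `Dom1 cc M`, `Dom2 cc M`: every cycle has at least one, at least two more edges outside `M` than in `M`;
* `Dom3 cc M`: every cycle has at least two, and if it meets `M` at least three more edges outside `M`
  than in `M`.

Proof.  The state graph is not planar, and cycles do not bound regions.  The new tool is an inequality for
graphs (and matroids): if `H` has no bridge and all cycles in `H` have positive weight, then the weight of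
`H` is at least its cyclomatic number (for the weight `-1` on a perfect matching and `1` outside this is
a theorem of Kotzig on unique perfect matchings).  It shows that the part of the state sum given by a set
of changed crossings does not reach the extreme degree.  For two dominated states the isolated chords
have the oriented smoothing in both states, and the inequality for the other crossings shows that the
span is positive.
-/

set_option autoImplicit false

namespace Pool.Agent.Results.MP_7bc610_gt.CycleDominatedStates

open Finset LaurentPolynomial Pool.Agent.H832R2.JR Pool.Agent.H867R3.Kn Pool.Agent.X130.KD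
open Pool.Agent.H756.VK

/-- Let a knot diagram on a closed oriented surface with `N > 0` crossings and writhe `w` be given by
its Gauss word `G` and its signs, and let `s` be a state with `v` curves, `m` smoothings of type `A` and
`m'` smoothings of type `B`.

* If every cycle of the state graph of `s` has more `B`-smoothed than `A`-smoothed crossings, then all
  exponents of `f` are at least `6 m - N - 2 v + 2 - 3 w`; if every cycle has at least two more, then the
  coefficient of `f` at this exponent is `± 1`.
* If every cycle of the state graph of `s` has more `A`-smoothed than `B`-smoothed crossings, then all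
  exponents of `f` are at most `N + 2 v - 2 - 6 m' - 3 w`; if every cycle has at least two more, then the
  coefficient of `f` at this exponent is `± 1`.
* If every cycle of the state graph of `s` has at least two more `B`-smoothed than `A`-smoothed crossings
  and every cycle of the state graph of `s₂` has at least two more `A`-smoothed than `B`-smoothed
  crossings, then either the knot is trivial and all crossings can be removed one after the other by
  Reidemeister moves of type I, or the distance of the two extreme exponents is at least `8` and `f` is
  not of the form `± A^n` (in particular, the Jones polynomial is not `1`).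
* (Seifert state) If every cycle of the Seifert graph has at least two more positive than negative
  crossings (or at least two more negative than positive ones) and the Jones polynomial is `1`, then all
  crossings can be removed one after the other by Reidemeister moves of type I.
* The same holds if `s` is a state with flat classes of parallel crossings every cycle of whose state
  graph has at least two, and if it contains an `A`-smoothed crossing at least three more `B`-smoothed
  than `A`-smoothed crossings (or the same with `A` and `B` exchanged). -/
theorem result (N : ℕ) (hN : 0 < N) (G : GaussWord N) (w s : Fin N → Bool) :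
    ((Dom1 (vpieces G s) (asm w s) → ∀ j, (fPoly G w).coeff j ≠ 0 →
        6 * ((asm w s).card : ℤ) - N - 2 * loops G s + 2 - 3 * writhe w ≤ j) ∧
      (Dom2 (vpieces G s) (asm w s) →
        |(fPoly G w).coeff (6 * ((asm w s).card : ℤ) - N - 2 * loops G s + 2 - 3 * writhe w)| =
          1)) ∧
    ((Dom1 (vpieces G s) (asm w s)ᶜ → ∀ j, (fPoly G w).coeff j ≠ 0 →
        j ≤ N + 2 * loops G s - 2 - 6 * ((asm w s)ᶜ.card : ℤ) - 3 * writhe w) ∧
      (Dom2 (vpieces G s) (asm w s)ᶜ →
        |(fPoly G w).coeff (N + 2 * loops G s - 2 - 6 * ((asm w s)ᶜ.card : ℤ) - 3 * writhe w)| =
          1)) ∧
    (Dom2 (vpieces G s) (asm w s) → ∀ s₂ : Fin N → Bool, Dom2 (vpieces G s₂) (asm w s₂)ᶜ →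
      UntiedByKinks G ∨
        (8 ≤ (N + 2 * loops G s₂ - 2 - 6 * ((asm w s₂)ᶜ.card : ℤ) - 3 * writhe w) -
            (6 * ((asm w s).card : ℤ) - N - 2 * loops G s + 2 - 3 * writhe w) ∧
          ∀ n : ℤ, fPoly G w ≠ T n ∧ fPoly G w ≠ -T n)) ∧
    (Dom2 (vpieces G fun _ => true) (univ.filter fun c => w c = true) ∨
        Dom2 (vpieces G fun _ => true) (univ.filter fun c => w c = false) →
      fPoly G w = 1 → UntiedByKinks G) ∧
    (∀ o : Half N → Bool, Ori G (st s) o → Flat G s o →
      Dom3 (vpieces G s) (asm w s) ∨ Dom3 (vpieces G s) (asm w s)ᶜ →
      fPoly G w = 1 → UntiedByKinks G) := by
  refine ⟨⟨low1 hN G w s, low2 hN G w s⟩, ⟨high1 hN G w s, high2 hN G w s⟩, ?_, seifert hN G w,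
    fun o ho hF h h1 => one_sided hN G w s o ho hF h h1⟩
  intro h1 s₂ h2
  rcases two_sided hN G w s s₂ h1 h2 with h3 | h3
  · exact Or.inl h3
  · right
    have h4 : 8 ≤ (N + 2 * loops G s₂ - 2 - 6 * ((asm w s₂)ᶜ.card : ℤ) - 3 * writhe w) -
            (6 * ((asm w s).card : ℤ) - N - 2 * loops G s + 2 - 3 * writhe w) := by
      omega
    refine ⟨h4, not_unit _ _ _ ?_ (low2 hN G w s h1) (high2 hN G w s₂ h2)⟩
    omega

end Pool.Agent.Results.MP_7bc610_gt.CycleDominatedStates
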