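import Pool.Agent.H360.VC.Main

/-!
# Classical and non-classical knots whose Jones polynomials tend to one, modulo powers of 30

Library definitions used (starting library `Pool.Agent.H891R2.Jones.Diagram`, `Pool.Agent.W639.RB.Defs`,
`Pool.Agent.Y463.SK.Defs`): `Diagram.fPoly` (the normalised bracket `(-A^{-3})^{w(D)} ⟨D⟩`, `A = T 1`; all
circles of a state count equally), `Outer m` (the part of an oriented diagram outside a box through which
`m` strands run, with arbitrary directions; planarity is not required, so these are parts of virtual
diagrams, that is, of diagrams on closed oriented surfaces), `Letter m = Bool × Fin (m - 1)` (the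
letters `σ_i^{±1}`; `(true, i)` is `σ_i`), `dia O w` (the diagram with the braid word `w` in the box of
`O`), `braidClosure m` (the usual closure), `Diagram.IsClosed` (the pieces fit together to closed
curves), `permW` (the permutation of a braid word), `IsPure` (the permutation is trivial).

`twist : Outer 4` (`Pool.Agent.H360.VC.Val`): the closure with one virtual crossing; the upper ends of the
strands `0`, `1`, `2`, `3` are joined to the lower ends of the strands `1`, `0`, `2`, `3`. So
`dia twist w` is a diagram on the torus; it has one component if `permW w * swap 0 1` has a single cycle.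

`part2 f` (`Pool.Agent.H360.KN.Main`): the part of the Laurent polynomial `f` in `A` with the exponents
congruent to `2` modulo `4`; it is zero for all classical knots.

Put `t = T (-4)`.  The multiples of `(30 (1 - t^M))^n`, `M ≥ 1`, `n ≥ 0`, define a topology on `ℤ[A, A⁻¹]`
which refines the `2`-adic, the `3`-adic, the `5`-adic topology and the topology of the powers of all
`1 - t^M` (the Habiro topology).

The proof uses explicit words in the kernels of the reduced Burau representation of the braid group on
four strands modulo 2, 3, 5 (`Pool.Agent.H360.JK`, files of MP_42db45_gt.UnknotModuloThirty), the grading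
modulo 4 of the coordinates of braid words in the Temperley–Lieb algebra and 7-adic valuations at
`A = 1/7` (`Pool.Agent.H360.KN`).
-/

set_option autoImplicit false

namespace Pool.Agent.Results.MP_7bc610_gt.LimitsModuloThirty

open LaurentPolynomial Pool.Agent.H891R2.Jones Pool.Agent.W639.RB Pool.Agent.Y463.SK
  Pool.Agent.H360.KN Pool.Agent.H360.VC

/-- There is one sequence of pure `4`-braid words `u 0, u 1, u 2, …` such that, with `t = T (-4)`:

* inserting `u j` at any place of a braid word in a box of any diagram on any surface changes the
  normalised bracket only by a multiple of `(30 (1 - t^M))^n`, for all `1 ≤ M ≤ j` and `n ≤ j`;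
* the closure of `σ_0 σ_1 σ_2` has normalised bracket `1`, and the closures of `σ_0 σ_1 σ_2 u j` are
  classical knots whose normalised brackets are different from `1` and pairwise different;
* the closure of `σ_2 σ_1` with one virtual crossing has normalised bracket `1`, and the closures with
  one virtual crossing of `σ_2 σ_1 u j` are knots on the torus whose normalised brackets have an
  exponent congruent to `2` modulo `4` (so none of them is stably classical) and pairwise different
  parts with these exponents.

So in the topology of the moduli `(30 (1 - t^M))^n` the value `1` of the unknot is a limit both of Jones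
polynomials of classical knots and of Jones polynomials of non-classical knots. -/
theorem result : ∃ u : ℕ → List (Letter 4),
    (∀ j, IsPure (u j)) ∧
    (∀ M n j : ℕ, 0 < M → M ≤ j → n ≤ j → ∀ (O : Outer 4) (v w : List (Letter 4)),
      (30 * (1 - T (-4) ^ M) : ℤ[T;T⁻¹]) ^ n ∣
        (dia O (v ++ u j ++ w)).fPoly - (dia O (v ++ w)).fPoly) ∧
    ((dia (braidClosure 4) [(true, 0), (true, 1), (true, 2)]).fPoly = 1 ∧
      (∀ j, (dia (braidClosure 4) ([(true, 0), (true, 1), (true, 2)] ++ u j)).IsClosed ∧
        (∀ x y, (permW ([(true, 0), (true, 1), (true, 2)] ++ u j)).SameCycle x y) ∧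
        (dia (braidClosure 4) ([(true, 0), (true, 1), (true, 2)] ++ u j)).fPoly ≠ 1) ∧
      Function.Injective
        (fun j => (dia (braidClosure 4) ([(true, 0), (true, 1), (true, 2)] ++ u j)).fPoly)) ∧
    ((dia twist [(true, 2), (true, 1)]).fPoly = 1 ∧
      (∀ j, (dia twist ([(true, 2), (true, 1)] ++ u j)).IsClosed ∧
        (∀ x y, (permW ([(true, 2), (true, 1)] ++ u j) * Equiv.swap 0 1).SameCycle x y) ∧
        ∃ n : ℤ, (4 : ℤ) ∣ n - 2 ∧
          (dia twist ([(true, 2), (true, 1)] ++ u j)).fPoly.coeff n ≠ 0) ∧
      Function.Injective (fun j => part2 (dia twist ([(true, 2), (true, 1)] ++ u j)).fPoly)) :=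
  Pool.Agent.H360.VC.main

end Pool.Agent.Results.MP_7bc610_gt.LimitsModuloThirty
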