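import Pool.Agent.H756.RW.FinW
import Pool.Agent.H756.RW.GaussB

/-!
# The Jones polynomial shows that random knots in the thickened torus are not classical

Library (`Pool.Graph.R_seed8.H832R2.JR.Defs`): a diagram with `N` crossings of a knot on a closed oriented
surface is given by its Gauss word `G : GaussWord N` (the place `G (c, b)` of each of the two passages
`(c, false)`, `(c, true)` of the crossing `c` on the knot) and the signs `w : Fin N → Bool` of the crossings.
`Crosses G i j`: the chords of `i` and `j` cross.  `fPoly G w` is the normalised bracket `f_K (A)`, a Laurent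
polynomial in `A = T 1`; `V_K (t) = f_K (t ^ (-1/4))`.

`Pool.Agent.H756.RP`: `Pt = ℝ × ℝ × ℝ`; `Describes q G w`: the projection `(x, y, z) ↦ (x, y)` of the closed
polygon with the vertices `q : Fin m → Pt` is a knot diagram, with the Gauss word `G` and the signs `w` (for some
base point, the vertex `q 0`).

`Pool.Agent.H756.RK`: `DescribesK p G w`: the same for the open polygonal chain with the vertices
`p : Fin (n + 1) → Pt`, an immersed arc in the plane whose end points are not on the rest of the arc; `law ρ n`: the law
of `n` independent points with the density `ρ`.

`Pool.Agent.H756.RW`: `deg G c` is the number of the chords which cross the chord of `c`;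
`oddWrithe G w` is the sum of the signs of the crossings `c` with odd `deg G c` (Kauffman's odd writhe).

*Random knots in the thickened torus.*  Let `p` be a random chain.  Remove from the sphere small discs around the
projections of the two end points and glue in an annulus; close the arc by an arc through this handle, which has no
crossings.  This is a knot diagram on the torus, i.e. a knot `K` in the thickened torus, and its Gauss word and signs
are those of the chain.

Proof.  The polynomial `f` determines the odd writhe: `∑_{4 ∤ k} k a_k = 2 J` (`tw_fPoly`; known, library
`MP_79b4ff_gt`, `OddWrithe`), and `J = 0` for all plane closed polygons by Gauss's theorem that all chords are crossed by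
an even number of chords (`even_of_describes`).  As for the moments (`MP_79b4ff_gt`, `RandomKnotoids`) one changes
single crossings by small changes of the heights of vertices; `J` is changed by `± 2` if the crossing is odd.  It
remains to see that many of these crossings are odd.  The parity of the crossing of the edges `i < k` is changed if a
vertex `j` between `i` and `k` is moved such that exactly one of the end points of the chain is in exactly one
of the two triangles swept (`degP_update`).  For almost every position of the end points this has a positive
probability (Lebesgue's density theorem), and resampling vertices in `r` blocks makes the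
parities of crossings in `r` further blocks independent fair bits.
-/

set_option autoImplicit false

namespace Pool.Agent.Results.MP_7bc610_gt.NonclassicalRandomKnots

open MeasureTheory
open scoped ENNReal
open Pool.Agent.H832R2.JR (GaussWord fPoly)
open Pool.Agent.H756.RP (Pt Describes)
open Pool.Agent.H756.RK (DescribesK law)
open Pool.Agent.H756.RW (oddWrithe tw tw_fPoly even_of_describes deg finalW)

/-- Let `ρ` be a probability density in space such that `ρ (x, y, z) ≤ h (x, y)` for an integrable
function `h` and `ρ ≥ b > 0` on a nonempty open set.  For every `η > 0` there is `n₀` such that for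
all `n ≥ n₀` the following holds for the knot `K` in the thickened torus which arises from a random open
polygonal chain with `n + 1` independent vertices with the density `ρ` if its end points are joined
through a handle.

* Almost surely the chain has a diagram.
* For every integer `c` the odd writhe of `K` is `c` with probability at most `η`.
* With probability at least `1 - η` the normalised bracket of `K` is different from the normalised bracket of
  every closed polygon in space (whose projection is a knot diagram): the Jones polynomial of `K` is not
  the Jones polynomial of any classical knot. -/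
theorem result (ρ : Pt → ℝ≥0∞) (hρ : Measurable ρ) (h1 : ∫⁻ q, ρ q = 1) (h : ℝ × ℝ → ℝ≥0∞)
    (hh : Measurable h) (hfin : ∫⁻ q, h q ≠ ∞) (hle : ∀ q, ρ q ≤ h (q.1, q.2.1)) (U : Set Pt)
    (hU : IsOpen U) (hne : U.Nonempty) (b : ℝ≥0∞) (hb : b ≠ 0) (hbU : ∀ q ∈ U, b ≤ ρ q)
    (η : ℝ) (hη : 0 < η) :
    ∃ n₀ : ℕ, ∀ n : ℕ, n₀ ≤ n →
      (∀ᵐ p ∂(law ρ (n + 1)), ∃ (N : ℕ) (G : GaussWord N) (w : Fin N → Bool),
        DescribesK p G w) ∧
      (∀ c : ℤ, law ρ (n + 1) {p | ∃ (N : ℕ) (G : GaussWord N) (w : Fin N → Bool),
        DescribesK p G w ∧ oddWrithe G w = c} ≤ ENNReal.ofReal η) ∧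
      law ρ (n + 1) {p | ∃ (N : ℕ) (G : GaussWord N) (w : Fin N → Bool), DescribesK p G w ∧
        ∃ (m : ℕ) (q : Fin m → Pt) (N' : ℕ) (G' : GaussWord N') (w' : Fin N' → Bool),
          Describes q G' w' ∧ fPoly G' w' = fPoly G w} ≤ ENNReal.ofReal η := by
  obtain ⟨n₀, hn₀⟩ := finalW ρ hρ h1 h hh hfin hle U hU hne b hb hbU η hη
  refine ⟨n₀, fun n hn => ?_⟩
  obtain ⟨_, h2, h3⟩ := hn₀ n hn
  refine ⟨h2, fun c => ?_, ?_⟩
  · refine (measure_mono ?_).trans (h3 (2 * c))
    rintro p ⟨N, G, w, hd, hJ⟩
    exact ⟨N, G, w, hd, by rw [tw_fPoly, hJ]⟩
  · refine (measure_mono ?_).trans (h3 0)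
    rintro p ⟨N, G, w, hd, m, q, N', G', w', hq, hf⟩
    refine ⟨N, G, w, hd, ?_⟩
    rw [← hf, tw_fPoly]
    have h4 : oddWrithe G' w' = 0 := by
      unfold oddWrithe
      refine Finset.sum_eq_zero fun c _ => ?_
      rw [if_neg (Nat.not_odd_iff_even.2 (even_of_describes hq c))]
    rw [h4, mul_zero]

end Pool.Agent.Results.MP_7bc610_gt.NonclassicalRandomKnots
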